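import Pool.Agent.Q240.EW.Stm4
import Pool.Agent.Y23.Co

/-! # Project EW2, Fin3: the pigeonhole argument for negative directions -/

set_option autoImplicit false

open Complex Filter Topology Finset MeasureTheory
open scoped ComplexConjugate

namespace Pool.Agent.Q208.EW

open Pool.Agent.Q240.EW
open Pool.Agent (Y23.Zt)

/-- separated points -/
theorem cnt : S_Cnt := by
  intro m t B hB hb hs
  have hinj : Function.Injective fun i : Fin m => ⌊t i⌋ := by
    intro i j hij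
    by_contra hne
    have h1 := hs i j hne
    have h2 := Int.abs_sub_lt_one_of_floor_eq_floor hij
    linarith
  have h1 : (Finset.univ.image fun i : Fin m => ⌊t i⌋) ⊆ Finset.Icc ⌊-B⌋ ⌊B⌋ := by
    intro z hz
    rw [Finset.mem_image] at hz
    obtain ⟨i, -, rfl⟩ := hz
    rw [Finset.mem_Icc]
    have h2 := abs_le.1 (hb i)
    exact ⟨Int.floor_le_floor h2.1, Int.floor_le_floor h2.2⟩
  have h2 := Finset.card_le_card h1
  rw [Finset.card_image_of_injective _ hinj, Finset.card_univ, Fintype.card_fin, Int.card_Icc] at h2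
  have h3 : (m : ℤ) ≤ max (⌊B⌋ + 1 - ⌊-B⌋) 0 := by
    have h4 : ((⌊B⌋ + 1 - ⌊-B⌋).toNat : ℤ) = max (⌊B⌋ + 1 - ⌊-B⌋) 0 := Int.toNat_eq_max _
    rw [← h4]
    exact_mod_cast h2
  have h4 : (m : ℝ) ≤ ((max (⌊B⌋ + 1 - ⌊-B⌋) 0 : ℤ) : ℝ) := by exact_mod_cast h3
  refine h4.trans ?_
  rw [Int.cast_max]
  refine max_le ?_ (by push_cast; linarith)
  push_cast
  have h5 := Int.floor_le B
  have h6 := Int.lt_floor_add_one (-B)
  linarith

/-- a nonzero combination which is annihilated by `m` linear forms -/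
lemma exists_comb {m : ℕ} (L : Fin m → (ℝ → ℂ) →ₗ[ℂ] ℂ) (f : Fin (m + 1) → ℝ → ℂ) :
    ∃ c : Fin (m + 1) → ℂ, c ≠ 0 ∧ ∀ j, L j (fun x => ∑ i, c i * f i x) = 0 := by
  let Λ : (Fin (m + 1) → ℂ) →ₗ[ℂ] (Fin m → ℂ) :=
    { toFun := fun c j => ∑ i, c i * L j (f i)
      map_add' := by
        intro c d; funext j
        simp only [Pi.add_apply, add_mul, Finset.sum_add_distrib]
      map_smul' := by
        intro c d; funext j
        simp only [Pi.smul_apply, smul_eq_mul, RingHom.id_apply, Finset.mul_sum, mul_assoc] }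
  have h1 : LinearMap.ker Λ ≠ ⊥ := by
    refine LinearMap.ker_ne_bot_of_finrank_lt ?_
    rw [Module.finrank_fin_fun, Module.finrank_fin_fun]
    exact Nat.lt_succ_self m
  obtain ⟨c, hc, hc0⟩ := Submodule.exists_mem_ne_zero_of_ne_bot h1
  refine ⟨c, hc0, fun j => ?_⟩
  have h2 : (fun x => ∑ i, c i * f i x) = ∑ i, c i • f i := by
    funext x
    rw [Finset.sum_apply]
    rfl
  rw [h2, map_sum]
  have h3 := congrFun (LinearMap.mem_ker.1 hc) j
  have h4 : Λ c j = ∑ i, c i * L j (f i) := rfl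
  rw [h4] at h3
  rw [Pi.zero_apply] at h3
  rw [← h3]
  exact Finset.sum_congr rfl fun i _ => by rw [map_smul, smul_eq_mul]

/-- separated bad zeros -/
lemma exists_sep (bad : Y23.Zt → Prop) (W : ℝ) (m : ℕ)
    (h : ∀ T : Fin m → ℝ, ∃ ρ : Y23.Zt, bad ρ ∧ ∀ j, W < |(ρ : ℂ).im - T j|) :
    ∀ n : ℕ, n ≤ m + 1 → ∃ r : Fin n → Y23.Zt, (∀ i, bad (r i)) ∧
      ∀ i j, i ≠ j → W < |(r i : ℂ).im - (r j : ℂ).im| := by
  intro n
  induction n with
  | zero => exact fun _ => ⟨fun i => i.elim0, fun i => i.elim0, fun i => i.elim0⟩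
  | succ n ih =>
    intro hn
    obtain ⟨r, hr, hsep⟩ := ih (by omega)
    obtain ⟨ρ, hρ, hρs⟩ := h fun j => if hj : (j : ℕ) < n then ((r ⟨j, hj⟩ : Y23.Zt) : ℂ).im else 0
    have h1 : ∀ i : Fin n, W < |(ρ : ℂ).im - (r i : ℂ).im| := by
      intro i
      have h2 := hρs ⟨i, by omega⟩
      simp only [Fin.is_lt, dif_pos] at h2
      exact h2
    refine ⟨Fin.snoc (α := fun _ => Y23.Zt) r ρ, ?_, ?_⟩
    · intro i
      refine Fin.lastCases ?_ (fun i => ?_) i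
      · rw [Fin.snoc_last]; exact hρ
      · rw [Fin.snoc_castSucc]; exact hr i
    · intro i j
      refine Fin.lastCases ?_ (fun i => ?_) i
      · refine Fin.lastCases ?_ (fun j => ?_) j
        · intro hne; exact absurd rfl hne
        · intro _
          rw [Fin.snoc_last, Fin.snoc_castSucc]
          exact h1 j
      · refine Fin.lastCases ?_ (fun j => ?_) j
        · intro _
          rw [Fin.snoc_last, Fin.snoc_castSucc, abs_sub_comm]
          exact h1 i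
        · intro hne
          rw [Fin.snoc_castSucc, Fin.snoc_castSucc]
          exact hsep i j fun h => hne (by rw [h])

/-- the core: the conclusion on the right of the critical line -/
lemma core3 (hMul : S_Mul) (hGood : S_Good) : ∀ τ ε : ℝ, 0 < τ → τ < 2 * Real.pi → 0 < ε → ∃ κ C A : ℝ, 0 < κ ∧ 0 < C ∧
    ∀ (a Y : ℝ) (ν : ℕ∞), A ≤ a → 0 ≤ Y → Y ≤ Real.exp (2 * a) →
    ((⌈(τ / Real.pi + ε) * a * Real.exp (2 * a)⌉₊ : ℕ) : ℕ∞) ≤ ν → ∀ (m : ℕ) (L : Fin m → (ℝ → ℂ) →ₗ[ℂ] ℂ),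
      (∀ f : ℝ → ℂ, Y23.G.F.Hn a ν f → (∀ j, L j f = 0) → -(Real.exp (-Y) * Y23.N2 f) ≤ Y23.QQ f) →
        ∃ T : Fin m → ℝ, ∀ ρ : Y23.Zt, (1 / 2 < (ρ : ℂ).re ∧ |(ρ : ℂ).im| ≤ τ * Real.exp (2 * a) ∧
          Real.exp (-(κ * Y / a)) < (ρ : ℂ).re - 1 / 2) → ∃ j, |(ρ : ℂ).im - T j| ≤ C * Y := by
  intro τ ε hτ0 hτ hε
  obtain ⟨κ, ϖ, c1, A0, hκ, hϖ, hϖ15, hc1, hG⟩ := hGood τ ε hτ0 hτ hε
  obtain ⟨C0, hC0, hM⟩ := hMul c1 hc1
  refine ⟨κ, 18 * ϖ / c1 + ϖ, 2 + |A0| + 9 * C0, hκ, by positivity, ?_⟩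
  intro a Y ν hA hY0 hYX hν m L hpos
  have hA0 : A0 ≤ a := by
    have := le_abs_self A0
    linarith
  have ha2 : 2 ≤ a := by
    have := abs_nonneg A0
    linarith
  have haC : 9 * C0 ≤ a := by
    have := abs_nonneg A0
    linarith
  set R : ℝ := (18 * ϖ / c1 + ϖ) * Y with hR
  by_contra hno
  have hno' : ∀ T : Fin m → ℝ, ∃ ρ : Y23.Zt, (1 / 2 < (ρ : ℂ).re ∧ |(ρ : ℂ).im| ≤ τ * Real.exp (2 * a) ∧
      Real.exp (-(κ * Y / a)) < (ρ : ℂ).re - 1 / 2) ∧ ∀ j, R < |(ρ : ℂ).im - T j| := by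
    intro T
    by_contra hT
    refine hno ⟨T, fun ρ hρ => ?_⟩
    by_contra hj
    refine hT ⟨ρ, hρ, fun j => ?_⟩
    by_contra hlt
    exact hj ⟨j, not_lt.1 hlt⟩
  obtain ⟨r, hr, hsep⟩ := exists_sep _ R m hno' (m + 1) le_rfl
  have hg := fun i => hG a Y ν hA0 hY0 hYX hν (r i) (hr i).1 (hr i).2.1 (hr i).2.2
  have hP : 4 * a ≤ ϖ * Y := (hg 0).1
  choose f hHn hQQ hN2 hTT using fun i => (hg i).2
  obtain ⟨c, hc0, hcL⟩ := exists_comb L f
  -- sizes
  set P : ℝ := ϖ * Y with hPdef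
  set X : ℝ := Real.exp (2 * a) with hXdef
  have hX1 : 2 * a + 1 ≤ X := Real.add_one_le_exp (2 * a)
  have hX16 : 16 ≤ X := by
    have h1 : Real.exp 4 ≤ X := Real.exp_le_exp.2 (by linarith)
    have h2 : (2 : ℝ) ≤ Real.exp 1 := by
      have := Real.add_one_le_exp (1 : ℝ)
      linarith
    have h3 : Real.exp 4 = Real.exp 1 ^ 4 := by
      rw [← Real.exp_nat_mul]; norm_num
    have h4 : (16 : ℝ) ≤ Real.exp 1 ^ 4 :=
      calc (16 : ℝ) = 2 ^ 4 := by norm_num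
        _ ≤ Real.exp 1 ^ 4 := pow_le_pow_left₀ (by norm_num) h2 4
    linarith
  have hXC : 9 * C0 ≤ X := by linarith
  have hE : X ^ 2 ≤ Real.exp P := by
    rw [hXdef, ← Real.exp_nat_mul]
    exact Real.exp_le_exp.2 (by push_cast; linarith)
  have hY1 : 0 ≤ 18 * ϖ / c1 * Y := by positivity
  have hRP : P ≤ R := by
    have : R = 18 * ϖ / c1 * Y + P := by rw [hR, hPdef]; ring
    linarith
  have hR1 : 1 ≤ R := by linarith
  have hτX : 0 ≤ τ * X := by positivity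
  have hπ := Real.pi_lt_d2
  have hτX7 : τ * X ≤ 7 * X := by
    refine mul_le_mul_of_nonneg_right ?_ (by linarith)
    linarith
  have hM1 : ((m + 1 : ℕ) : ℝ) ≤ Real.exp P := by
    have h1 := cnt (m + 1) (fun i => ((r i : Y23.Zt) : ℂ).im) (τ * X) hτX (fun i => (hr i).2.1)
      (fun i j hij => hR1.trans (hsep i j hij).le)
    refine h1.trans ?_
    nlinarith
  have hlog : C0 * Real.log (3 + τ * X) ≤ Real.exp P := by
    have h1 : Real.log (3 + τ * X) ≤ 9 * X := by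
      have h2 := Real.log_le_sub_one_of_pos (by linarith : (0 : ℝ) < 3 + τ * X)
      linarith
    have h3 : C0 * Real.log (3 + τ * X) ≤ C0 * (9 * X) := mul_le_mul_of_nonneg_left h1 hC0.le
    nlinarith
  have hlog0 : 0 ≤ Real.log (3 + τ * X) := Real.log_nonneg (by linarith)
  have hθ1 : Real.exp (-(9 * P)) ≤ 1 := Real.exp_le_one_iff.2 (by linarith)
  have hcR : Real.exp (-(c1 * R / 2)) ≤ Real.exp (-(9 * P)) := by
    refine Real.exp_le_exp.2 ?_
    have h1 : c1 * R / 2 = 9 * P + c1 * P / 2 := by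
      rw [hR, hPdef]; field_simp; ring
    have h2 : 0 ≤ c1 * P / 2 := by positivity
    linarith
  obtain ⟨k1, k2, k3⟩ := hM a ν (m + 1) f (fun i => ((r i : Y23.Zt) : ℂ).im) R (Real.exp (2 * P)) (Real.exp (-(9 * P)))
    (τ * X) c (by linarith) hHn (by linarith) (Real.exp_pos _).le (Real.exp_pos _).le hθ1 (fun i => (hr i).2.1)
    (fun i j hij => (hsep i j hij).le) hTT
  have key := hpos _ k1 hcL
  -- the sum of squares
  set S : ℝ := ∑ i, ‖c i‖ ^ 2 with hS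
  have hS0 : 0 < S := by
    obtain ⟨i, hi⟩ : ∃ i, c i ≠ 0 := by
      by_contra h
      exact hc0 (funext fun i => by_contra fun hi => h ⟨i, hi⟩)
    exact Finset.sum_pos' (fun _ _ => by positivity) ⟨i, Finset.mem_univ _, by positivity⟩
  have hsq : (∑ i, ‖c i‖) ^ 2 ≤ Real.exp P * S := by
    have h1 : (∑ i : Fin (m + 1), ‖c i‖) ^ 2 ≤ ((Finset.univ : Finset (Fin (m + 1))).card : ℝ) * ∑ i, ‖c i‖ ^ 2 :=
      sq_sum_le_card_mul_sum_sq
    rw [Finset.card_univ, Fintype.card_fin] at h1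
    exact h1.trans (mul_le_mul_of_nonneg_right hM1 hS0.le)
  have hq1 : ∑ i, ‖c i‖ ^ 2 * Y23.QQ (f i) ≤ -S := by
    rw [hS, ← Finset.sum_neg_distrib]
    refine Finset.sum_le_sum fun i _ => ?_
    have h1 : ‖c i‖ ^ 2 * Y23.QQ (f i) ≤ ‖c i‖ ^ 2 * (-1) := mul_le_mul_of_nonneg_left (hQQ i) (by positivity)
    linarith
  have hq2 : ∑ i, ‖c i‖ ^ 2 * Y23.N2 (f i) ≤ Real.exp (4 / 5 * Y) * S := by
    rw [hS, Finset.mul_sum]
    refine Finset.sum_le_sum fun i _ => ?_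
    rw [mul_comm (Real.exp _)]
    exact mul_le_mul_of_nonneg_left (hN2 i) (by positivity)
  have hq3 : C0 * Real.exp (2 * P) ^ 2 * Real.log (3 + τ * X) * (Real.exp (-(c1 * R / 2)) + Real.exp (-(9 * P))) *
      (∑ i, ‖c i‖) ^ 2 ≤ S / 2 := by
    have h1 : Real.exp (-(c1 * R / 2)) + Real.exp (-(9 * P)) ≤ 2 * Real.exp (-(9 * P)) := by linarith
    have h2 : C0 * Real.exp (2 * P) ^ 2 * Real.log (3 + τ * X) ≤ Real.exp P * Real.exp (2 * P) ^ 2 := by
      have : C0 * Real.exp (2 * P) ^ 2 * Real.log (3 + τ * X) = (C0 * Real.log (3 + τ * X)) * Real.exp (2 * P) ^ 2 := by ring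
      rw [this]
      exact mul_le_mul_of_nonneg_right hlog (by positivity)
    calc C0 * Real.exp (2 * P) ^ 2 * Real.log (3 + τ * X) * (Real.exp (-(c1 * R / 2)) + Real.exp (-(9 * P))) *
        (∑ i, ‖c i‖) ^ 2
        ≤ (Real.exp P * Real.exp (2 * P) ^ 2) * (2 * Real.exp (-(9 * P))) * (Real.exp P * S) := by
          refine mul_le_mul (mul_le_mul h2 h1 (by positivity) (by positivity)) hsq (by positivity) (by positivity)
      _ = 2 * Real.exp (-(3 * P)) * S := by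
          have e1 : Real.exp P * Real.exp (2 * P) ^ 2 * Real.exp (-(9 * P)) * Real.exp P = Real.exp (-(3 * P)) := by
            rw [← Real.exp_nat_mul, ← Real.exp_add, ← Real.exp_add, ← Real.exp_add]
            congr 1; push_cast; ring
          calc (Real.exp P * Real.exp (2 * P) ^ 2) * (2 * Real.exp (-(9 * P))) * (Real.exp P * S)
              = 2 * (Real.exp P * Real.exp (2 * P) ^ 2 * Real.exp (-(9 * P)) * Real.exp P) * S := by ring
            _ = _ := by rw [e1]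
      _ ≤ 2 * (1 / 4) * S := by
          refine mul_le_mul_of_nonneg_right ?_ hS0.le
          refine mul_le_mul_of_nonneg_left ?_ (by norm_num)
          have h3 : (4 : ℝ) ≤ Real.exp (3 * P) := by
            have := Real.add_one_le_exp (3 * P)
            linarith
          rw [Real.exp_neg, one_div]
          exact inv_anti₀ (by norm_num) h3
      _ = S / 2 := by ring
  have hn : Real.exp (-Y) * Y23.N2 (fun x => ∑ i, c i * f i x) ≤ Real.exp (-(14 * P)) * S := by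
    have h1 : Y23.N2 (fun x => ∑ i, c i * f i x) ≤ Real.exp P * (Real.exp (4 / 5 * Y) * S) := by
      refine k3.trans ?_
      calc (((m + 1 : ℕ) : ℕ) : ℝ) * ∑ i, ‖c i‖ ^ 2 * Y23.N2 (f i)
          ≤ (((m + 1 : ℕ) : ℕ) : ℝ) * (Real.exp (4 / 5 * Y) * S) := mul_le_mul_of_nonneg_left hq2 (by positivity)
        _ ≤ _ := mul_le_mul_of_nonneg_right hM1 (by positivity)
    calc Real.exp (-Y) * Y23.N2 (fun x => ∑ i, c i * f i x)
        ≤ Real.exp (-Y) * (Real.exp P * (Real.exp (4 / 5 * Y) * S)) := mul_le_mul_of_nonneg_left h1 (Real.exp_pos _).le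
      _ = Real.exp (-Y + P + 4 / 5 * Y) * S := by
          rw [Real.exp_add, Real.exp_add]; ring
      _ ≤ Real.exp (-(14 * P)) * S := by
          refine mul_le_mul_of_nonneg_right (Real.exp_le_exp.2 ?_) hS0.le
          have h2 : 15 * P ≤ 1 / 5 * Y := by
            rw [hPdef, ← mul_assoc]
            exact mul_le_mul_of_nonneg_right hϖ15 hY0
          linarith
  have hfin : Real.exp (-(14 * P)) ≤ 1 / 4 := by
    have h3 : (4 : ℝ) ≤ Real.exp (14 * P) := by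
      have := Real.add_one_le_exp (14 * P)
      linarith
    rw [Real.exp_neg, one_div]
    exact inv_anti₀ (by norm_num) h3
  have hfin2 : Real.exp (-(14 * P)) * S ≤ 1 / 4 * S := mul_le_mul_of_nonneg_right hfin hS0.le
  linarith

/-- **Fin3** -/
theorem fin3 : S_Fin3 := by
  intro hMul hGood τ ε hτ0 hτ hε
  obtain ⟨κ, C, A, hκ, hC, h⟩ := core3 hMul hGood τ ε hτ0 hτ hε
  refine ⟨κ, C, A, hκ, hC, fun a Y ν hA hY0 hYX hν m L hpos => ?_⟩
  obtain ⟨T, hT⟩ := h a Y ν hA hY0 hYX hν m L hpos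
  refine ⟨T, fun ρ hρt hfar => ?_⟩
  have h1 : ∀ ρ : Y23.Zt, 1 / 2 < (ρ : ℂ).re → |(ρ : ℂ).im| ≤ τ * Real.exp (2 * a) →
      (∀ j, C * Y < |(ρ : ℂ).im - T j|) → (ρ : ℂ).re - 1 / 2 ≤ Real.exp (-(κ * Y / a)) := by
    intro ρ hρ hρt hfar
    by_contra hlt
    obtain ⟨j, hj⟩ := hT ρ ⟨hρ, hρt, not_le.1 hlt⟩
    exact absurd hj (not_le.2 (hfar j))
  rcases lt_trichotomy (ρ : ℂ).re (1 / 2) with h2 | h2 | h2
  · have e1 : ((Y23.rfZ ρ : Y23.Zt) : ℂ).re = 1 - (ρ : ℂ).re := by rw [Y23.rfZ_val]; simp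
    have e2 : ((Y23.rfZ ρ : Y23.Zt) : ℂ).im = (ρ : ℂ).im := by rw [Y23.rfZ_val]; simp
    have h3 := h1 (Y23.rfZ ρ) (by rw [e1]; linarith) (by rw [e2]; exact hρt) (by rw [e2]; exact hfar)
    rw [e1] at h3
    rw [abs_of_neg (by linarith)]
    linarith
  · rw [h2, sub_self, abs_zero]
    exact (Real.exp_pos _).le
  · rw [abs_of_pos (by linarith)]
    exact h1 ρ h2 hρt hfar

end Pool.Agent.Q208.EW
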